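import Pool.Agent.Lib.MP_29d7aa_lc.GMain

set_option autoImplicit false

namespace Pool.Agent.Results.MP_29d7aa_lc.GreedyDiscrepancy

/-- A deterministic polynomial-time algorithm finds a colouring of discrepancy
`O (√(t / log n))`, `t = p m`, of a random `m × n` Bernoulli matrix whenever `n ≥ m ^ 2` and
`t ≥ log n`. -/
theorem result : ∃ f : List (List Bool) → List Bool, N68a2faeb.IsPolyTime f ∧
    ∀ m n : ℕ, 20000000 ≤ Real.log m → m ^ 2 ≤ n →
      ∀ p : ℝ, Real.log n ≤ p * m → p ≤ 1 / 2 →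
        1 - (m : ℝ) ^ (-(1 / 10) : ℝ) ≤ ∑ A : Fin m → Fin n → Bool,
          (∏ i, ∏ j, if A i j then p else 1 - p) *
            if ∀ i, ((|∑ j : Fin n, (if A i j then 1 else 0) *
              (if (f (List.ofFn fun i => List.ofFn (A i))).getD j false then 1 else -1 : ℤ)| : ℤ) : ℝ)
                ≤ 31378 * √(p * m / Real.log n)
            then 1 else 0 :=
  ⟨Pool.Agent.Lib.MP_29d7aa_lc.Gd.out2, Pool.Agent.Lib.MP_29d7aa_lc.Gd.out2_PT.isPolyTime,
    fun _ _ hm hn _ hp hp' => Pool.Agent.Lib.MP_29d7aa_lc.Gd.out2_correct hm hn hp hp'⟩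

end Pool.Agent.Results.MP_29d7aa_lc.GreedyDiscrepancy
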