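import Pool.Agent.Lib.MP_29d7aa_lc.Sis.Main

set_option autoImplicit false

namespace Pool.Agent.Results.MP_29d7aa_lc.SisReduction

open Pool.Agent.Lib.MP_29d7aa_lc.Sis

/-- From every randomized polynomial-time algorithm `f` one gets a randomized polynomial-time
algorithm `g` such that, if `f` colours a random Bernoulli(`p`) matrix with discrepancy at most one
with probability `P`, then `g` finds with probability at least `P - 2 ^ (-L)` a vector
`x ∈ {-1, 1} ^ n` with `U x = 0 (mod q)` for a uniformly random `d × n` matrix `U` over `ℤ / q`. -/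
theorem result (f : List (List Bool) × List Bool → List Bool) (hf : N68a2faeb.IsPolyTime f) :
    ∃ g : List ℕ × List (List ℕ) × List Bool → List Bool, N68a2faeb.IsPolyTime g ∧
      ∀ (m n d q a l L ρ R : ℕ) (p : ℝ), p = a / 2 ^ l → p ≤ 1 / 2 → Odd q → m * n * q < 2 ^ L →
        200 * d * (L : ℝ) ^ 2 ≤ p * m → 200 * (L : ℝ) ^ 2 ≤ p ^ 2 * n →
        (2 ^ L + l + ρ) ^ 35 ≤ R →
        (∑ r : Fin ρ → Bool, ∑ A : Fin m → Fin n → Bool,
          (∏ i, ∏ j, if A i j then p else 1 - p) *
            if ∀ i, |∑ j : Fin n, (if A i j then 1 else 0) *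
              (if (f (List.ofFn fun i => List.ofFn (A i), List.ofFn r)).getD j false
                then 1 else -1 : ℤ)| ≤ 1
            then 1 else 0) / 2 ^ ρ - 1 / 2 ^ L ≤
        (∑ U : Fin d → Fin n → Fin q, ∑ ω : Fin R → Bool,
          if ∀ i, (q : ℤ) ∣ ∑ j : Fin n, ((U i j : ℕ) : ℤ) *
            (if (g ([m, n, q, a, l, L, ρ], List.ofFn fun i => List.ofFn fun j => (U i j : ℕ),
              List.ofFn ω)).getD j false then 1 else -1 : ℤ)
          then (1 : ℝ) else 0) / (q ^ (d * n) * 2 ^ R) := by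
  refine ⟨red2 f, (red2_PT hf).isPolyTime, fun m n d q a l L ρ R p hp h1 hq hL ht hn hR => ?_⟩
  have h := main (d := d) (R := R) f hp h1 hq hL ht hn hR
  unfold wm wv wt ind rs sgn emb at h
  convert h

end Pool.Agent.Results.MP_29d7aa_lc.SisReduction
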