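import Pool.Agent.Lib.MP_29d7aa_lc.Str

set_option autoImplicit false

namespace Pool.Agent.Results.MP_29d7aa_lc.StableHardness

open Finset Classical Pool.Agent.Lib.MP_29d7aa_lc.Low Pool.Agent.Lib.MP_29d7aa_lc.Str

/-- Every (randomized) rule `x` that colours a random Bernoulli matrix with discrepancy at most
`Δ`, where `1 ≤ Δ ≤ √(t / (3 * 10 ^ 7 * log n))`, is unstable: if it succeeds with probability
`P`, then with probability at least `P ^ 2 - exp (-δ t n / (3200 Δ ^ 2))` it succeeds on `A` and on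
a copy `B` of `A` in which each entry is resampled with probability `δ`, and the two colourings
differ in more than `m / (40 log n)` places. -/
theorem result (m n : ℕ) (p Δ δ : ℝ) (Ω : Type) [Fintype Ω] (w : Ω → ℝ)
    (x : Ω → (Fin m → Fin n → Bool) → Fin n → ℤ)
    (hn : 2 ≤ n) (hm : m ≤ n) (hp : p ≤ 1 / 2) (hΔ : 1 ≤ Δ)
    (ht : 30000000 * Δ ^ 2 * Real.log n ≤ p * m)
    (hδ : 40 * Δ ^ 2 ≤ δ * (p * m * n)) (hδ' : δ * (p * n) ≤ 40 * Δ ^ 2)
    (hw : ∀ ω, 0 ≤ w ω) (hw1 : ∑ ω, w ω = 1) (hx : ∀ ω A j, x ω A j = 1 ∨ x ω A j = -1) :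
    (∑ ω, w ω * ∑ A : Fin m → Fin n → Bool, (∏ i, ∏ j, if A i j then p else 1 - p) *
      if ∀ i, ((|∑ j, (if A i j then 1 else 0) * x ω A j| : ℤ) : ℝ) ≤ Δ then 1 else 0) ^ 2 -
      Real.exp (-(δ * (p * m * n) / (3200 * Δ ^ 2))) ≤
    ∑ ω, w ω * ∑ A : Fin m → Fin n → Bool, ∑ B : Fin m → Fin n → Bool,
      (∏ i, ∏ j, (if A i j then p else 1 - p) *
        ((if A i j = B i j then 1 - δ else 0) + δ * if B i j then p else 1 - p)) *
      if (∀ i, ((|∑ j, (if A i j then 1 else 0) * x ω A j| : ℤ) : ℝ) ≤ Δ) ∧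
        (∀ i, ((|∑ j, (if B i j then 1 else 0) * x ω B j| : ℤ) : ℝ) ≤ Δ) ∧
        m / (40 * Real.log n) < ((univ.filter fun j => x ω A j ≠ x ω B j).card : ℝ)
      then 1 else 0 := by
  have d1 : 0 < Δ ^ 2 := by positivity
  have d2 : p * m * n ≠ 0 := fun h => by
    rw [h] at hδ
    linarith
  have hK : 1 ≤ δ * (p * m * n) / (40 * Δ ^ 2) := by
    rw [le_div_iff₀ (by positivity)]
    linarith
  have hK' : δ * (p * m * n) / (40 * Δ ^ 2) ≤ m := by
    rw [div_le_iff₀ (by positivity)]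
    nlinarith [mul_le_mul_of_nonneg_left hδ' (Nat.cast_nonneg (α := ℝ) m)]
  have h0 := fun ω => stable_det (x ω) (hx ω) hn hm hp hΔ ht hK hK'
    (fun A => ∀ i, ((|rs (A i) (x ω A)| : ℤ) : ℝ) ≤ Δ) fun _ h => h
  have e1 : 40 * Δ ^ 2 * (δ * (p * m * n) / (40 * Δ ^ 2)) / (p * m * n) = δ := by
    rw [mul_div_cancel₀ _ (by positivity), mul_div_cancel_right₀ _ d2]
  have e2 : δ * (p * m * n) / (40 * Δ ^ 2) / 80 = δ * (p * m * n) / (3200 * Δ ^ 2) := by
    rw [div_div]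
    congr 1
    ring
  rw [e1, e2] at h0
  have h := jensen (a := 1) hw hw1 fun ω => (h0 ω).trans_eq (by rw [one_mul])
  rw [one_mul] at h
  exact sub_le_iff_le_add.2 h

end Pool.Agent.Results.MP_29d7aa_lc.StableHardness
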