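import Pool.Agent.Lib.MP_29d7aa_lc.Poly

set_option autoImplicit false

namespace Pool.Agent.Results.MP_29d7aa_lc.SubexpAlgorithm

/-- A deterministic polynomial-time algorithm finds a colouring of discrepancy at most one of a
random `m × n` Bernoulli matrix as soon as `n ≥ exp (7 m / log m)`. -/
theorem result : ∃ f : List (List Bool) → List Bool, N68a2faeb.IsPolyTime f ∧
    ∀ m n : ℕ, 2 ^ 30 ≤ m → Real.exp (7 * m / Real.log m) ≤ n →
      ∀ p : ℝ, 1 ≤ p * m → p ≤ 1 / 2 →
        1 - Real.exp (-(m / Real.log m)) ≤ ∑ A : Fin m → Fin n → Bool,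
          (∏ i, ∏ j, if A i j then p else 1 - p) *
            if ∀ i, |∑ j : Fin n, (if A i j then 1 else 0) *
              (if (f (List.ofFn fun i => List.ofFn (A i))).getD j false then 1 else -1 : ℤ)| ≤ 1
            then 1 else 0 :=
  ⟨Pool.Agent.Lib.MP_29d7aa_lc.out, Pool.Agent.Lib.MP_29d7aa_lc.out_PT.isPolyTime,
    fun _ _ hm hn _ hp hp' => Pool.Agent.Lib.MP_29d7aa_lc.out_correct hm hn hp hp'⟩

end Pool.Agent.Results.MP_29d7aa_lc.SubexpAlgorithm
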